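import Mathlib

/-!
# Finite unit norm tight frames of every length in every finite-dimensional Banach space

We maximise the product of the absolute values of the determinants of all `n`-tuples of distinct
members of a family of `N` vectors of the unit ball.  The first order condition at a maximum
produces norming functionals, and Cramer's rule turns their sum into a multiple of the identity.
-/

set_option autoImplicit false

namespace Pool.Agent.Results.MP_8b1f5a_an.AllLengths

open Module Filter Topology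

universe u v

variable {𝕜 : Type u} [RCLike 𝕜] {X : Type v} [NormedAddCommGroup X] [NormedSpace 𝕜 X]
  [FiniteDimensional 𝕜 X]

/-- first order condition for a product of affine factors -/
lemma sum_nonpos_of_prod_le {ι : Type*} (s : Finset ι) (r : ι → ℝ)
    (h : ∀ t : ℝ, 0 < t → t ≤ 1 → (∀ e ∈ s, 0 < 1 + t * r e) → ∏ e ∈ s, (1 + t * r e) ≤ 1) :
    ∑ e ∈ s, r e ≤ 0 := by
  have hpos : ∀ᶠ t : ℝ in 𝓝[>] 0, ∀ e ∈ s, 0 < 1 + t * r e := by
    rw [Finset.eventually_all]
    intro e _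
    have hc : ContinuousAt (fun t : ℝ => 1 + t * r e) 0 := by fun_prop
    have h0 : (0 : ℝ) < 1 + 0 * r e := by norm_num
    exact (hc.eventually (lt_mem_nhds h0)).filter_mono nhdsWithin_le_nhds
  have hle1 : ∀ᶠ t : ℝ in 𝓝[>] 0, t ≤ 1 :=
    (eventually_le_nhds (zero_lt_one (α := ℝ))).filter_mono nhdsWithin_le_nhds
  have hgt : ∀ᶠ t : ℝ in 𝓝[>] (0 : ℝ), 0 < t := eventually_mem_nhdsWithin
  have key : ∀ᶠ t : ℝ in 𝓝[>] 0, ∑ e ∈ s, r e / (1 + t * r e) ≤ 0 := by
    filter_upwards [hpos, hle1, hgt] with t h1 h2 h3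
    have hp := h t h3 h2 h1
    have hlog : ∑ e ∈ s, Real.log (1 + t * r e) ≤ 0 := by
      rw [← Real.log_prod (fun e he => (h1 e he).ne')]
      exact Real.log_nonpos (Finset.prod_nonneg (fun e he => (h1 e he).le)) hp
    have hb : ∑ e ∈ s, t * (r e / (1 + t * r e)) ≤ ∑ e ∈ s, Real.log (1 + t * r e) := by
      refine Finset.sum_le_sum (fun e he => ?_)
      have := Real.one_sub_inv_le_log_of_pos (h1 e he)
      have h4 : 1 - (1 + t * r e)⁻¹ = t * (r e / (1 + t * r e)) := by
        have := (h1 e he).ne'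
        field_simp
        ring
      rw [← h4]
      exact this
    rw [← Finset.mul_sum] at hb
    have : t * ∑ e ∈ s, r e / (1 + t * r e) ≤ 0 := hb.trans hlog
    by_contra hcon
    push Not at hcon
    have := mul_pos h3 hcon
    linarith
  have hlim : Tendsto (fun t : ℝ => ∑ e ∈ s, r e / (1 + t * r e)) (𝓝[>] 0)
      (𝓝 (∑ e ∈ s, r e)) := by
    have hc : ContinuousAt (fun t : ℝ => ∑ e ∈ s, r e / (1 + t * r e)) 0 := by
      refine tendsto_finsetSum _ (fun e _ => ?_)
      refine ContinuousAt.div (by fun_prop) (by fun_prop) (by norm_num)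
    have := hc.tendsto
    simp only [zero_mul, add_zero, div_one] at this
    exact this.mono_left nhdsWithin_le_nhds
  exact le_of_tendsto hlim key

omit [FiniteDimensional 𝕜 X] in
/-- expansion of the determinant along one slot -/
lemma det_update {n : ℕ} (b : Basis (Fin n) 𝕜 X) (w : Basis (Fin n) 𝕜 X) (k : Fin n) (y : X) :
    b.det (Function.update w k y) = w.coord k y * b.det w := by
  have h : (b.det.toMultilinearMap.toLinearMap w k) = (b.det w) • (w.coord k) := by
    refine w.ext (fun j => ?_)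
    by_cases hj : j = k
    · subst hj
      simp
    · have h1 : b.det (Function.update w k (w j)) = 0 := by
        refine b.det.map_eq_zero_of_eq _ (i := j) (j := k) ?_ hj
        simp [Function.update_of_ne hj]
      simp [h1, Basis.coord_apply, hj]
  have := congrArg (fun L : X →ₗ[𝕜] 𝕜 => L y) h
  simp at this
  rw [this]
  simp [mul_comm]


omit [FiniteDimensional 𝕜 X] in
/-- families in general position (moment curve) inside the unit ball -/
lemma exists_general {n : ℕ} (b : Basis (Fin n) 𝕜 X) (N : ℕ) :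
    ∃ x : Fin N → X, (∀ i, ‖x i‖ ≤ 1) ∧ ∀ e : Fin n ↪ Fin N, b.det (x ∘ e) ≠ 0 := by
  classical
  set v : Fin N → X := fun i => ∑ k : Fin n, ((i : ℕ) : 𝕜) ^ (k : ℕ) • b k with hv
  set R : ℝ := 1 + ∑ i, ‖v i‖ with hR
  have hRpos : 0 < R := by
    have : 0 ≤ ∑ i, ‖v i‖ := Finset.sum_nonneg (fun i _ => norm_nonneg _)
    linarith
  refine ⟨fun i => ((R⁻¹ : ℝ) : 𝕜) • v i, fun i => ?_, fun e => ?_⟩
  · rw [norm_smul, RCLike.norm_ofReal, abs_of_pos (inv_pos.mpr hRpos), inv_mul_le_iff₀ hRpos,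
      mul_one]
    have := Finset.single_le_sum (f := fun i => ‖v i‖) (fun i _ => norm_nonneg _)
      (Finset.mem_univ i)
    have h' : ‖v i‖ ≤ ∑ i, ‖v i‖ := this
    linarith
  · have h1 : b.det ((fun i => ((R⁻¹ : ℝ) : 𝕜) • v i) ∘ e)
        = (∏ _i : Fin n, ((R⁻¹ : ℝ) : 𝕜)) • b.det (v ∘ e) :=
      b.det.toMultilinearMap.map_smul_univ (fun _ => ((R⁻¹ : ℝ) : 𝕜)) (v ∘ e)
    rw [h1]
    refine smul_ne_zero ?_ ?_
    · rw [Finset.prod_ne_zero_iff]
      intro _ _
      exact RCLike.ofReal_ne_zero.mpr (inv_pos.mpr hRpos).ne'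
    · rw [Basis.det_apply]
      have h2 : b.toMatrix (v ∘ e) = (Matrix.vandermonde (fun j => (((e j : Fin N) : ℕ) : 𝕜))).transpose := by
        ext i j
        simp only [Basis.toMatrix_apply, Function.comp_apply, hv, Matrix.transpose_apply,
          Matrix.vandermonde_apply, map_sum, map_smul, Basis.repr_self, Finsupp.coe_finsetSum,
          Finset.sum_apply, Finsupp.smul_apply, smul_eq_mul, Finsupp.single_apply]
        simp
      rw [h2, Matrix.det_transpose, Matrix.det_vandermonde_ne_zero_iff]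
      intro j j' h
      have h' : (((e j : Fin N) : ℕ) : 𝕜) = (((e j' : Fin N) : ℕ) : 𝕜) := h
      have h3 : ((e j : Fin N) : ℕ) = ((e j' : Fin N) : ℕ) := Nat.cast_injective h'
      exact e.injective (Fin.ext h3)

/-- the number of pairs `(e, k)` with `e k = i` -/
noncomputable def cnt (n N : ℕ) (i : Fin N) : ℕ := ∑ e : Fin n ↪ Fin N, ∑ k : Fin n, if e k = i then 1 else 0

lemma cnt_eq (n N : ℕ) (i j : Fin N) : cnt n N i = cnt n N j := by
  unfold cnt
  refine Fintype.sum_equiv (Equiv.embeddingCongr (Equiv.refl _) (Equiv.swap i j)) _ _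
    (fun e => Finset.sum_congr rfl (fun k _ => ?_))
  have h : (Equiv.embeddingCongr (Equiv.refl _) (Equiv.swap i j)) e k = (Equiv.swap i j) (e k) := by
    simp
  rw [h]
  have h2 : (Equiv.swap i j) (e k) = j ↔ e k = i := by
    rw [Equiv.swap_apply_eq_iff, Equiv.swap_apply_right]
  simp only [h2]

lemma cnt_mul (n N : ℕ) (i : Fin N) :
    N * cnt n N i = n * Fintype.card (Fin n ↪ Fin N) := by
  have h1 : ∑ j : Fin N, cnt n N j = N * cnt n N i := by
    rw [Finset.sum_congr rfl (fun j _ => cnt_eq n N j i)]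
    simp
  rw [← h1]
  unfold cnt
  rw [Finset.sum_comm]
  have h2 : ∀ e : Fin n ↪ Fin N, ∑ j : Fin N, ∑ k : Fin n, (if e k = j then 1 else 0) = n := by
    intro e
    rw [Finset.sum_comm]
    simp
  rw [Finset.sum_congr rfl (fun e _ => h2 e)]
  simp [mul_comm]

/-- The main construction. -/
theorem exists_frame [Nontrivial X] (N : ℕ) (hN : finrank 𝕜 X ≤ N) :
    ∃ (x : Fin N → X) (f : Fin N → StrongDual 𝕜 X),
      (∀ i, ‖x i‖ = 1 ∧ ‖f i‖ = 1 ∧ f i (x i) = 1) ∧
      ∀ y : X, ∑ i, f i y • x i = ((N : 𝕜) / (finrank 𝕜 X : 𝕜)) • y := by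
  classical
  have : ProperSpace X := FiniteDimensional.proper_rclike 𝕜 X
  set n := finrank 𝕜 X with hn
  have hn0 : 0 < n := finrank_pos
  let b : Basis (Fin n) 𝕜 X := finBasis 𝕜 X
  let F : (Fin N → X) → ℝ := fun x => ∏ e : Fin n ↪ Fin N, ‖b.det (x ∘ e)‖
  have hFc : Continuous F := by
    refine continuous_finsetProd _ (fun e _ => Continuous.norm ?_)
    simp only [Basis.det_apply]
    refine Continuous.matrix_det ?_
    refine continuous_pi (fun i => continuous_pi (fun j => ?_))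
    simp only [Basis.toMatrix_apply, Function.comp_apply]
    have h1 : Continuous (fun z : X => b.repr z i) :=
      LinearMap.continuous_of_finiteDimensional (b.coord i)
    exact h1.comp (continuous_apply _)
  let K : Set (Fin N → X) := Set.pi Set.univ (fun _ => Metric.closedBall (0 : X) 1)
  have hK : IsCompact K := isCompact_univ_pi (fun _ => isCompact_closedBall _ _)
  obtain ⟨x0, hx0, hx0'⟩ := exists_general b N
  have hx0K : x0 ∈ K := by
    intro i _
    simpa using hx0 i
  obtain ⟨x, hxK, hmax⟩ := hK.exists_isMaxOn ⟨x0, hx0K⟩ hFc.continuousOn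
  have hF0 : 0 < F x0 := Finset.prod_pos (fun e _ => norm_pos_iff.mpr (hx0' e))
  have hFx : 0 < F x := lt_of_lt_of_le hF0 (hmax hx0K)
  have hx1 : ∀ i, ‖x i‖ ≤ 1 := fun i => by simpa using hxK i (Set.mem_univ i)
  have hdet : ∀ e : Fin n ↪ Fin N, b.det (x ∘ e) ≠ 0 := by
    intro e h
    apply hFx.ne'
    exact Finset.prod_eq_zero (Finset.mem_univ e) (by rw [h, norm_zero])
  have hbas : ∀ e : Fin n ↪ Fin N, ∃ w : Basis (Fin n) 𝕜 X, (w : Fin n → X) = x ∘ e := by
    intro e
    have h := (Basis.is_basis_iff_det b).mpr (isUnit_iff_ne_zero.mpr (hdet e))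
    exact ⟨Basis.mk h.1 h.2.ge, Basis.coe_mk _ _⟩
  choose w hw using hbas
  let ψ : (Fin n ↪ Fin N) → Fin N → (X →ₗ[𝕜] 𝕜) := fun e i =>
    ∑ k : Fin n, if e k = i then (w e).coord k else 0
  have hψ_in : ∀ (e : Fin n ↪ Fin N) (k : Fin n), ψ e (e k) = (w e).coord k := by
    intro e k
    simp only [ψ]
    rw [Finset.sum_eq_single k]
    · simp
    · intro j _ hj
      rw [if_neg]
      exact fun h => hj (e.injective h)
    · simp
  have hψ_out : ∀ (e : Fin n ↪ Fin N) (i : Fin N), i ∉ Set.range e → ψ e i = 0 := by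
    intro e i hi
    simp only [ψ]
    refine Finset.sum_eq_zero (fun k _ => if_neg (fun h => hi ⟨k, h⟩))
  have hwx : ∀ (e : Fin n ↪ Fin N) (k : Fin n), (w e).coord k (x (e k)) = 1 := by
    intro e k
    have : x (e k) = w e k := by rw [hw e]; rfl
    rw [this]
    simp
  have hψx : ∀ (e : Fin n ↪ Fin N) (i : Fin N), ψ e i (x i) = ((∑ k : Fin n, if e k = i then 1 else 0 : ℕ) : 𝕜) := by
    intro e i
    by_cases hi : i ∈ Set.range e
    · obtain ⟨k, rfl⟩ := hi
      rw [hψ_in, hwx]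
      rw [Finset.sum_eq_single k]
      · simp
      · intro j _ hj
        rw [if_neg]
        exact fun h => hj (e.injective h)
      · simp
    · rw [hψ_out e i hi]
      have : (∑ k : Fin n, if e k = i then 1 else 0 : ℕ) = 0 :=
        Finset.sum_eq_zero (fun k _ => if_neg (fun h => hi ⟨k, h⟩))
      rw [this]
      simp
  have hratio : ∀ (i : Fin N) (y : X) (t : 𝕜) (e : Fin n ↪ Fin N),
      b.det (Function.update x i (x i + t • (y - x i)) ∘ e)
        = (1 + t * (ψ e i y - ψ e i (x i))) * b.det (x ∘ e) := by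
    intro i y t e
    by_cases hi : i ∈ Set.range e
    · obtain ⟨k, rfl⟩ := hi
      rw [Function.update_comp_eq_of_injective x e.injective, ← hw e, det_update b (w e) k, hψ_in]
      simp only [map_add, map_smul, map_sub, hwx, smul_eq_mul]
    · rw [hψ_out e i hi, Function.update_comp_eq_of_notMem_range x _ hi]
      simp
  have hfirst : ∀ (i : Fin N) (y : X), ‖y‖ ≤ 1 →
      ∑ e : Fin n ↪ Fin N, RCLike.re (ψ e i y - ψ e i (x i)) ≤ 0 := by
    intro i y hy
    refine sum_nonpos_of_prod_le _ _ (fun t ht0 ht1 hpos => ?_)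
    set x' : Fin N → X := Function.update x i (x i + (t : 𝕜) • (y - x i)) with hx'
    have hx'K : x' ∈ K := by
      intro j _
      rw [hx', mem_closedBall_zero_iff]
      by_cases hj : j = i
      · subst hj
        rw [Function.update_self]
        have : x j + (t : 𝕜) • (y - x j) = ((1 - t : ℝ) : 𝕜) • x j + (t : 𝕜) • y := by
          push_cast
          module
        rw [this]
        calc ‖((1 - t : ℝ) : 𝕜) • x j + (t : 𝕜) • y‖
            ≤ ‖((1 - t : ℝ) : 𝕜) • x j‖ + ‖(t : 𝕜) • y‖ := norm_add_le _ _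
          _ = (1 - t) * ‖x j‖ + t * ‖y‖ := by
              rw [norm_smul, norm_smul, RCLike.norm_ofReal, RCLike.norm_ofReal,
                abs_of_nonneg (by linarith), abs_of_pos ht0]
          _ ≤ (1 - t) * 1 + t * 1 := by
              have := hx1 j
              gcongr
          _ = 1 := by ring
      · rw [Function.update_of_ne hj]
        exact hx1 j
    have h1 : F x' ≤ F x := hmax hx'K
    have h2 : F x' = (∏ e : Fin n ↪ Fin N, ‖1 + (t : 𝕜) * (ψ e i y - ψ e i (x i))‖) * F x := by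
      simp only [F, hx']
      rw [← Finset.prod_mul_distrib]
      refine Finset.prod_congr rfl (fun e _ => ?_)
      rw [hratio, norm_mul]
    have h3 : (∏ e : Fin n ↪ Fin N, ‖1 + (t : 𝕜) * (ψ e i y - ψ e i (x i))‖) ≤ 1 := by
      rw [h2] at h1
      by_contra hc
      push Not at hc
      nlinarith
    refine le_trans (Finset.prod_le_prod (fun e he => (hpos e he).le) (fun e _ => ?_)) h3
    have h4 := RCLike.re_le_norm (1 + (t : 𝕜) * (ψ e i y - ψ e i (x i)))
    have h5 : RCLike.re (1 + (t : 𝕜) * (ψ e i y - ψ e i (x i)))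
        = 1 + t * RCLike.re (ψ e i y - ψ e i (x i)) := by
      rw [map_add, RCLike.one_re, RCLike.re_ofReal_mul]
    rw [h5] at h4
    exact h4
  -- the count
  have hEpos : 0 < Fintype.card (Fin n ↪ Fin N) := by
    rw [Fintype.card_pos_iff]
    exact ⟨Fin.castLEEmb hN⟩
  have hMpos : ∀ i, 0 < cnt n N i := by
    intro i
    have h := cnt_mul n N i
    have : 0 < N * cnt n N i := by rw [h]; positivity
    exact Nat.pos_of_mul_pos_left this
  have hsumψ : ∀ i, ∑ e : Fin n ↪ Fin N, ψ e i (x i) = (cnt n N i : 𝕜) := by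
    intro i
    rw [Finset.sum_congr rfl (fun e _ => hψx e i)]
    unfold cnt
    push_cast
    rfl
  let g : Fin N → (X →ₗ[𝕜] 𝕜) := fun i => ((cnt n N i : 𝕜))⁻¹ • ∑ e : Fin n ↪ Fin N, ψ e i
  have hM0 : ∀ i, (cnt n N i : 𝕜) ≠ 0 := fun i => Nat.cast_ne_zero.mpr (hMpos i).ne'
  have hgx : ∀ i, g i (x i) = 1 := by
    intro i
    simp only [g, LinearMap.smul_apply, LinearMap.sum_apply, hsumψ, smul_eq_mul]
    exact inv_mul_cancel₀ (hM0 i)
  have hre : ∀ i y, ‖y‖ ≤ 1 → RCLike.re (g i y) ≤ 1 := by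
    intro i y hy
    have h1 := hfirst i y hy
    rw [← map_sum, Finset.sum_sub_distrib, hsumψ, map_sub, RCLike.natCast_re] at h1
    have h2 : g i y = (((cnt n N i : ℝ)⁻¹ : ℝ) : 𝕜) * ∑ e : Fin n ↪ Fin N, ψ e i y := by
      simp only [g, LinearMap.smul_apply, LinearMap.sum_apply, smul_eq_mul]
      push_cast
      rfl
    rw [h2, RCLike.re_ofReal_mul]
    have h3 : (0 : ℝ) < cnt n N i := by exact_mod_cast hMpos i
    rw [inv_mul_le_iff₀ h3]
    linarith
  have hnorm : ∀ i y, ‖g i y‖ ≤ 1 * ‖y‖ := by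
    intro i y
    rw [one_mul]
    by_cases hy : y = 0
    · simp [hy]
    by_cases hg : g i y = 0
    · rw [hg, norm_zero]; exact norm_nonneg _
    have hy' : 0 < ‖y‖ := norm_pos_iff.mpr hy
    have hg' : 0 < ‖g i y‖ := norm_pos_iff.mpr hg
    have h1 := hre i (((starRingEnd 𝕜 (g i y)) * ((‖g i y‖⁻¹ * ‖y‖⁻¹ : ℝ) : 𝕜)) • y) (by
      rw [norm_smul, norm_mul, RCLike.norm_conj, RCLike.norm_ofReal,
        abs_of_pos (by positivity)]
      have : ‖g i y‖ * (‖g i y‖⁻¹ * ‖y‖⁻¹) * ‖y‖ = 1 := by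
        field_simp
      rw [this])
    rw [map_smul, smul_eq_mul] at h1
    have h2 : (starRingEnd 𝕜 (g i y)) * ((‖g i y‖⁻¹ * ‖y‖⁻¹ : ℝ) : 𝕜) * g i y
        = ((‖g i y‖ * ‖y‖⁻¹ : ℝ) : 𝕜) := by
      have h3 : (starRingEnd 𝕜 (g i y)) * g i y = ((‖g i y‖ ^ 2 : ℝ) : 𝕜) := by
        rw [RCLike.conj_mul]
        push_cast
        rfl
      calc (starRingEnd 𝕜 (g i y)) * ((‖g i y‖⁻¹ * ‖y‖⁻¹ : ℝ) : 𝕜) * g i y
          = ((starRingEnd 𝕜 (g i y)) * g i y) * ((‖g i y‖⁻¹ * ‖y‖⁻¹ : ℝ) : 𝕜) := by ring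
        _ = ((‖g i y‖ ^ 2 * (‖g i y‖⁻¹ * ‖y‖⁻¹) : ℝ) : 𝕜) := by
            rw [h3]
            push_cast
            ring
        _ = ((‖g i y‖ * ‖y‖⁻¹ : ℝ) : 𝕜) := by
            congr 1
            field_simp
    rw [h2, RCLike.ofReal_re, ← div_eq_mul_inv, div_le_one hy'] at h1
    exact h1
  refine ⟨x, fun i => LinearMap.toContinuousLinearMap (g i), fun i => ?_, fun y => ?_⟩
  · have hop : ‖LinearMap.toContinuousLinearMap (g i)‖ ≤ 1 :=
      ContinuousLinearMap.opNorm_le_bound _ zero_le_one (fun y => hnorm i y)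
    have hval : (LinearMap.toContinuousLinearMap (g i)) (x i) = 1 := hgx i
    have h1 : (1 : ℝ) ≤ ‖LinearMap.toContinuousLinearMap (g i)‖ * ‖x i‖ := by
      have := (LinearMap.toContinuousLinearMap (g i)).le_opNorm (x i)
      rwa [hval, norm_one] at this
    have hx1i := hx1 i
    have hnn := norm_nonneg (x i)
    have hnn2 := norm_nonneg (LinearMap.toContinuousLinearMap (g i))
    refine ⟨le_antisymm hx1i ?_, le_antisymm hop ?_, hval⟩
    · nlinarith
    · nlinarith
  · have h1 : ∀ i, (LinearMap.toContinuousLinearMap (g i)) y • x i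
        = ((cnt n N i : 𝕜))⁻¹ • ∑ e : Fin n ↪ Fin N, ψ e i y • x i := by
      intro i
      have : (LinearMap.toContinuousLinearMap (g i)) y = g i y := rfl
      rw [this]
      simp only [g, LinearMap.smul_apply, LinearMap.sum_apply, smul_eq_mul, mul_smul,
        Finset.sum_smul]
    rw [Finset.sum_congr rfl (fun i _ => h1 i)]
    obtain ⟨i0⟩ : Nonempty (Fin N) := ⟨⟨0, lt_of_lt_of_le hn0 hN⟩⟩
    rw [Finset.sum_congr rfl (fun i _ => by rw [cnt_eq n N i i0]), ← Finset.smul_sum,
      Finset.sum_comm]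
    have h2 : ∀ e : Fin n ↪ Fin N, ∑ i, ψ e i y • x i = y := by
      intro e
      simp only [ψ, LinearMap.sum_apply, Finset.sum_smul]
      rw [Finset.sum_comm]
      have h3 : ∀ k : Fin n, ∑ i : Fin N, (if e k = i then (w e).coord k else 0 : X →ₗ[𝕜] 𝕜) y • x i
          = (w e).repr y k • w e k := by
        intro k
        rw [Finset.sum_eq_single (e k)]
        · rw [if_pos rfl, Basis.coord_apply, hw e]
          rfl
        · intro j _ hj
          rw [if_neg (Ne.symm hj)]
          simp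
        · simp
      rw [Finset.sum_congr rfl (fun k _ => h3 k)]
      exact (w e).sum_repr y
    rw [Finset.sum_congr rfl (fun e _ => h2 e), Finset.sum_const, Finset.card_univ,
      ← Nat.cast_smul_eq_nsmul 𝕜, smul_smul]
    congr 1
    have h4 := cnt_mul n N i0
    have h5 : (N : 𝕜) * (cnt n N i0 : 𝕜) = (n : 𝕜) * (Fintype.card (Fin n ↪ Fin N) : 𝕜) := by
      exact_mod_cast h4
    have hn' : (n : 𝕜) ≠ 0 := Nat.cast_ne_zero.mpr hn0.ne'
    have hM' := hM0 i0
    field_simp
    linear_combination -h5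

/-- `x, f` is a finite unit norm tight frame of length `N` for `X`: all `x i` and `f i` have norm
one, `f i (x i) = 1`, and `∑ f i ⊗ x i` is a scalar multiple of the identity. -/
def IsFUNTF (𝕜 : Type u) [RCLike 𝕜] (X : Type v) [NormedAddCommGroup X] [NormedSpace 𝕜 X]
    (N : ℕ) (x : Fin N → X) (f : Fin N → StrongDual 𝕜 X) : Prop :=
  (∀ i, ‖x i‖ = 1 ∧ ‖f i‖ = 1 ∧ f i (x i) = 1) ∧ ∃ c : 𝕜, ∀ y : X, ∑ i, f i y • x i = c • y

/-- Every nonzero finite-dimensional Banach space over `ℝ` or `ℂ` has a finite unit norm tight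
frame of every length `N` at least its dimension. -/
theorem result : ∀ (𝕜 : Type u) [RCLike 𝕜] (X : Type v) [NormedAddCommGroup X] [NormedSpace 𝕜 X]
    [FiniteDimensional 𝕜 X] [Nontrivial X] (N : ℕ), finrank 𝕜 X ≤ N →
    ∃ (x : Fin N → X) (f : Fin N → StrongDual 𝕜 X), IsFUNTF 𝕜 X N x f := by
  intro 𝕜 _ X _ _ _ _ N hN
  obtain ⟨x, f, h1, h2⟩ := exists_frame (𝕜 := 𝕜) (X := X) N hN
  exact ⟨x, f, h1, _, h2⟩

end Pool.Agent.Results.MP_8b1f5a_an.AllLengths
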